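import Pool.Agent.LSG.StmtsA

/-!
Squad LSG (MP_005a41_gt), row CYL: Haar measure of cylinders.
-/

set_option autoImplicit false

open MeasureTheory Set Topology

namespace Pool.Agent.LSG.H17

theorem cyl (h : MukStmt) : CylStmt := by
  haveI hp : IsProbabilityMeasure mu := h.1
  intro n
  induction n with
  | zero =>
    intro s
    have h0 : {x : K | ∀ i < 0, x i = s i} = univ := by
      ext x
      simp
    rw [h0, measure_univ]
    simp
  | succ n ih =>
    intro s
    set A : Set K := {x : K | ∀ i < n + 1, x i = s i} with hA
    set e : K := Pi.single n 1 with he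
    set B : Set K := (fun y => e + y) ⁻¹' A with hB
    have hen : e n = 1 := by rw [he]; simp
    have hei : ∀ i, i < n → e i = 0 := by
      intro i hi
      rw [he, Pi.single_eq_of_ne hi.ne]
    have hmB : mu B = mu A := h.2.1 e A
    have hAm : MeasurableSet A := by
      have h1 : A = ⋂ i ∈ Finset.range (n + 1), (fun x : K => x i) ⁻¹' {s i} := by
        ext x
        simp [hA]
      rw [h1]
      exact Finset.measurableSet_biInter _ fun i _ =>
        (measurable_pi_apply i) (MeasurableSet.singleton _)
    have hun : {x : K | ∀ i < n, x i = s i} = A ∪ B := by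
      ext x
      constructor
      · intro hx
        have hx' : ∀ i < n, x i = s i := hx
        have h2 : ∀ a b : ZMod 2, a = b ∨ 1 + a = b := by decide
        rcases h2 (x n) (s n) with h3 | h3
        · left
          intro i hi
          rcases Nat.lt_succ_iff_lt_or_eq.1 hi with h4 | h4
          · exact hx' i h4
          · rw [h4]; exact h3
        · right
          intro i hi
          show e i + x i = s i
          rcases Nat.lt_succ_iff_lt_or_eq.1 hi with h4 | h4
          · rw [hei i h4, zero_add]; exact hx' i h4
          · rw [h4, hen]; exact h3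
      · rintro (hx | hx)
        · intro i hi
          exact hx i (Nat.lt_succ_of_lt hi)
        · intro i hi
          have h4 : e i + x i = s i := hx i (Nat.lt_succ_of_lt hi)
          rwa [hei i hi, zero_add] at h4
    have hdis : Disjoint A B := by
      rw [Set.disjoint_left]
      intro x hx hx2
      have h3 : x n = s n := hx n (Nat.lt_succ_self n)
      have h4 : e n + x n = s n := hx2 n (Nat.lt_succ_self n)
      rw [hen, ← h3] at h4
      have h5 : ∀ a : ZMod 2, 1 + a ≠ a := by decide
      exact h5 _ h4
    have h6 := ih s
    rw [hun, measure_union' hdis hAm, hmB, ← two_mul] at h6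
    have h7 : (2 : ENNReal) * (2 ^ (n + 1))⁻¹ = (2 ^ n)⁻¹ := by
      rw [pow_succ', ENNReal.mul_inv (Or.inl two_ne_zero) (Or.inl ENNReal.ofNat_ne_top),
        ← mul_assoc, ENNReal.mul_inv_cancel two_ne_zero ENNReal.ofNat_ne_top, one_mul]
    rw [← h7] at h6
    exact (ENNReal.mul_right_inj two_ne_zero ENNReal.ofNat_ne_top).1 h6

end Pool.Agent.LSG.H17
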